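import Pool.Agent.Lib.MP_4fbe7c_an.WN.Base

/-!
Project WN (MP_4fbe7c_an), module ALP: the inequality for the letters (helper54).
-/

set_option autoImplicit false

namespace Pool.Agent.Lib.MP_4fbe7c_an.WN.H54

open Pool.Agent.Lib.MP_4fbe7c_an.WN

/-- The weighted arithmetic-geometric mean inequality for a bounded product. -/
theorem amgm {c α β X2 Y2 P g : ℝ} (hα : 0 ≤ α) (hβ : 0 ≤ β) (hX : 0 ≤ X2) (hY : 0 ≤ Y2)
    (hP : P ^ 2 ≤ g * (X2 * Y2)) (h : c ^ 2 * g ≤ 4 * α * β) : -(α * X2 + β * Y2) ≤ c * P := by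
  have h1 : (c * P) ^ 2 ≤ (α * X2 + β * Y2) ^ 2 := by
    have h2 : (c * P) ^ 2 ≤ (4 * α * β) * (X2 * Y2) := by
      rw [mul_pow]
      calc c ^ 2 * P ^ 2 ≤ c ^ 2 * (g * (X2 * Y2)) := mul_le_mul_of_nonneg_left hP (sq_nonneg _)
        _ = (c ^ 2 * g) * (X2 * Y2) := by ring
        _ ≤ _ := mul_le_mul_of_nonneg_right h (by positivity)
    nlinarith [sq_nonneg (α * X2 - β * Y2)]
  exact (abs_le.mp (abs_le_of_sq_le_sq h1 (by positivity))).1

theorem x_le (x : ℝ) : x ≤ Real.exp (x - 1) := by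
  have := Real.add_one_le_exp (x - 1)
  linarith

section bounds

variable {v R : ℝ}

theorem exp_le (hv : 0 ≤ v) (hR : v ≤ R) : Real.exp (4 - 4 * R) ≤ 55 := by
  have h1 : Real.exp (4 - 4 * R) ≤ Real.exp 4 := Real.exp_le_exp.mpr (by linarith)
  have h2 : Real.exp 4 = Real.exp 1 ^ 4 := by
    rw [← Real.exp_nat_mul]
    norm_num
  have h3 := Real.exp_one_lt_d9
  have h4 : Real.exp 1 ^ 4 ≤ 2.7182818286 ^ 4 :=
    pow_le_pow_left₀ (Real.exp_pos 1).le h3.le 4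
  have h5 : (2.7182818286 : ℝ) ^ 4 ≤ 55 := by norm_num
  linarith

theorem exp_mul_le (hv : 0 ≤ v) (hR : v ≤ R) : Real.exp (4 - 4 * R) * v ≤ 51 / 10 := by
  have h1 : Real.exp (4 - 4 * R) ≤ Real.exp (4 - 4 * v) := Real.exp_le_exp.mpr (by linarith)
  have h2 := x_le (4 * v)
  have h3 : Real.exp (4 - 4 * v) * Real.exp (4 * v - 1) = Real.exp 1 ^ 3 := by
    rw [← Real.exp_add, ← Real.exp_nat_mul]
    congr 1
    push_cast
    ring
  have h4 : Real.exp 1 ^ 3 ≤ 2.7182818286 ^ 3 :=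
    pow_le_pow_left₀ (Real.exp_pos 1).le Real.exp_one_lt_d9.le 3
  have h4' : (2.7182818286 : ℝ) ^ 3 ≤ 204 / 10 := by norm_num
  have h5 : Real.exp (4 - 4 * v) * (4 * v) ≤ Real.exp (4 - 4 * v) * Real.exp (4 * v - 1) :=
    mul_le_mul_of_nonneg_left h2 (Real.exp_pos _).le
  have h6 : Real.exp (4 - 4 * R) * v ≤ Real.exp (4 - 4 * v) * v :=
    mul_le_mul_of_nonneg_right h1 hv
  linarith

theorem exp_mul_sq_le (hv : 0 ≤ v) (hR : v ≤ R) : Real.exp (4 - 4 * R) * v ^ 2 ≤ 19 / 10 := by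
  have h1 : Real.exp (4 - 4 * R) ≤ Real.exp (4 - 4 * v) := Real.exp_le_exp.mpr (by linarith)
  have h2 := x_le (2 * v)
  have h3 : Real.exp (4 - 4 * v) * Real.exp (2 * v - 1) ^ 2 = Real.exp 1 ^ 2 := by
    rw [← Real.exp_nat_mul, ← Real.exp_add, ← Real.exp_nat_mul]
    congr 1
    push_cast
    ring
  have h4 : Real.exp 1 ^ 2 ≤ 2.7182818286 ^ 2 :=
    pow_le_pow_left₀ (Real.exp_pos 1).le Real.exp_one_lt_d9.le 2
  have h4' : (2.7182818286 : ℝ) ^ 2 ≤ 76 / 10 := by norm_num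
  have h2' : (2 * v) ^ 2 ≤ Real.exp (2 * v - 1) ^ 2 := pow_le_pow_left₀ (by positivity) h2 2
  have h5 : Real.exp (4 - 4 * v) * (2 * v) ^ 2 ≤
      Real.exp (4 - 4 * v) * Real.exp (2 * v - 1) ^ 2 :=
    mul_le_mul_of_nonneg_left h2' (Real.exp_pos _).le
  have h6 : Real.exp (4 - 4 * R) * v ^ 2 ≤ Real.exp (4 - 4 * v) * v ^ 2 :=
    mul_le_mul_of_nonneg_right h1 (sq_nonneg _)
  nlinarith

end bounds

/-- The letters. -/
structure Lt (K L s a b b1 h E v : ℝ) : Prop where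
  K0 : 0 < K
  L1 : L = 1 + K
  a0 : 0 < a
  aL : a * L = 1 / 1000
  b0 : 0 < b1
  bL : b1 * L = a / 100
  bb : 0 ≤ b
  bs : b * s = b1
  s0 : 0 ≤ s
  s1 : s ^ 2 ≤ 1 / 1000000
  s2 : s ^ 2 ≤ K / 1000000
  hE : h = (1 + E) / 2
  E0 : 0 < E
  E1 : E ≤ 55
  v0 : 0 ≤ v
  Ev : E * v ≤ 51 / 10
  Ev2 : E * v ^ 2 ≤ 19 / 10

namespace Lt

variable {K L s a b b1 h E v : ℝ}

theorem L0 (l : Lt K L s a b b1 h E v) : 0 < L := by
  have := l.K0
  rw [l.L1]
  positivity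

theorem h0 (l : Lt K L s a b b1 h E v) : 0 < h := by
  have := l.E0
  rw [l.hE]
  positivity

theorem hh (l : Lt K L s a b b1 h E v) : 1 / 2 ≤ h := by
  have := l.E0
  rw [l.hE]
  linarith

theorem hEh (l : Lt K L s a b b1 h E v) : E ≤ 2 * h := by
  have := l.E0
  rw [l.hE]
  linarith

theorem L1' (l : Lt K L s a b b1 h E v) : 1 ≤ L := by
  have := l.K0
  rw [l.L1]
  linarith

theorem KL (l : Lt K L s a b b1 h E v) : 4 * K ≤ L ^ 2 := by
  rw [l.L1]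
  nlinarith [sq_nonneg (K - 1)]

theorem K2 (l : Lt K L s a b b1 h E v) : 2 + K ≤ 2 * L := by
  have := l.K0
  rw [l.L1]
  linarith

theorem a1 (l : Lt K L s a b b1 h E v) : a ≤ 1 / 1000 := by
  have h1 := l.aL
  have h2 := mul_le_mul_of_nonneg_left l.L1' l.a0.le
  linarith

theorem b1a (l : Lt K L s a b b1 h E v) : b1 ≤ a / 100 := by
  have h1 := l.bL
  have h2 := mul_le_mul_of_nonneg_left l.L1' l.b0.le
  linarith

theorem bLL (l : Lt K L s a b b1 h E v) : b1 * L ^ 2 = 1 / 100000 := by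
  have h1 := l.bL
  have h2 := l.aL
  calc b1 * L ^ 2 = (b1 * L) * L := by ring
    _ = (a * L) / 100 := by rw [h1]; ring
    _ = _ := by rw [h2]; norm_num

theorem ha (l : Lt K L s a b b1 h E v) : h * a ≤ 28 / 1000 := by
  have h1 : h ≤ 28 := by
    have := l.E1
    rw [l.hE]
    linarith
  calc h * a ≤ 28 * a := mul_le_mul_of_nonneg_right h1 l.a0.le
    _ ≤ _ := by linarith [l.a1]

theorem aLL (l : Lt K L s a b b1 h E v) : (a * L) ^ 2 = 1 / 1000000 := by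
  rw [l.aL]
  norm_num

theorem K2L (l : Lt K L s a b b1 h E v) : (2 + K) ^ 2 ≤ 4 * L ^ 2 := by
  have h1 := l.K2
  have h2 := l.K0
  calc (2 + K) ^ 2 ≤ (2 * L) ^ 2 := pow_le_pow_left₀ (by linarith) h1 2
    _ = _ := by ring

/-- term 1 -/
theorem t1 (l : Lt K L s a b b1 h E v) (A Y : ℝ) :
    -(15 / 100 * L * A ^ 2 + 15 / 10 * E * a * (v ^ 2 * Y ^ 2)) ≤
      (-2 * E * (2 + K) * a) * (A * (v * Y)) := by
  have hE := l.E0
  have hL := l.L0
  have ha := l.a0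
  refine amgm (g := 1) (by positivity) (by positivity) (by positivity) (by positivity)
    (le_of_eq (by ring)) ?_
  have h1 : E * (2 + K) ^ 2 * a ≤ 225 / 1000 * L := by
    calc E * (2 + K) ^ 2 * a ≤ E * (4 * L ^ 2) * a := by gcongr; exact l.K2L
      _ = 4 * E * L * (a * L) := by ring
      _ = 4 * E * L / 1000 := by rw [l.aL]; ring
      _ ≤ 4 * 55 * L / 1000 := by gcongr; exact l.E1
      _ ≤ _ := by linarith
  calc (-2 * E * (2 + K) * a) ^ 2 * 1 = (4 * E * a) * (E * (2 + K) ^ 2 * a) := by ring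
    _ ≤ (4 * E * a) * (225 / 1000 * L) := mul_le_mul_of_nonneg_left h1 (by positivity)
    _ = _ := by ring

/-- term 2 -/
theorem t2 (l : Lt K L s a b b1 h E v) (Y m2 C2 : ℝ) (hC : 0 ≤ C2) (hm : m2 ^ 2 ≤ v ^ 2 * C2) :
    -(2 / 10 * h * b1 * L * C2 + 4 / 10 * E * a * (v ^ 2 * Y ^ 2)) ≤
      (-2 * E * (2 + K) * b1) * (m2 * Y) := by
  have hE := l.E0
  have hL := l.L0
  have ha := l.a0
  have hb := l.b0
  have hh := l.h0
  refine amgm (g := 1) (by positivity) (by positivity) (by positivity) (by positivity) ?_ ?_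
  · calc (m2 * Y) ^ 2 = m2 ^ 2 * Y ^ 2 := by ring
      _ ≤ v ^ 2 * C2 * Y ^ 2 := by gcongr
      _ = _ := by ring
  have h1 : (2 + K) ^ 2 * b1 ≤ 4 / 100 * (a * L) := by
    calc (2 + K) ^ 2 * b1 ≤ (4 * L ^ 2) * b1 := by gcongr; exact l.K2L
      _ = 4 * L * (b1 * L) := by ring
      _ = _ := by rw [l.bL]; ring
  calc (-2 * E * (2 + K) * b1) ^ 2 * 1 = (4 * E * b1) * E * ((2 + K) ^ 2 * b1) := by ring
    _ ≤ (4 * E * b1) * (2 * h) * (4 / 100 * (a * L)) := by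
        gcongr
        exact l.hEh
    _ = _ := by ring

/-- term 3 -/
theorem t3 (l : Lt K L s a b b1 h E v) (Y ω N : ℝ) (hN0 : 0 ≤ N)
    (hN : N ≤ 101 / 100 * a * v ^ 2) :
    -(1 / 10 * K * L * (v ^ 2 * ω ^ 2) + 15 / 100 * E * a * (v ^ 2 * Y ^ 2)) ≤
      (2 * E * K) * (N * (ω * Y)) := by
  have hE := l.E0
  have hL := l.L0
  have ha := l.a0
  have hK := l.K0
  refine amgm (g := (101 / 100 * a) ^ 2) (by positivity) (by positivity) (by positivity)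
    (by positivity) ?_ ?_
  · calc (N * (ω * Y)) ^ 2 = N ^ 2 * (ω ^ 2 * Y ^ 2) := by ring
      _ ≤ (101 / 100 * a * v ^ 2) ^ 2 * (ω ^ 2 * Y ^ 2) := by gcongr
      _ = _ := by ring
  have h1 : E * (101 / 100) ^ 2 * K * a ≤ 15 / 1000 * L := by
    calc E * (101 / 100) ^ 2 * K * a ≤ 55 * (101 / 100) ^ 2 * (L ^ 2 / 4) * a := by
          gcongr
          · exact l.E1
          · linarith [l.KL]
      _ = 55 * (101 / 100) ^ 2 / 4 * L * (a * L) := by ring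
      _ = 55 * (101 / 100) ^ 2 / 4 * L * (1 / 1000) := by rw [l.aL]
      _ ≤ _ := by linarith
  calc (2 * E * K) ^ 2 * (101 / 100 * a) ^ 2
      = (4 * E * K * a) * (E * (101 / 100) ^ 2 * K * a) := by ring
    _ ≤ (4 * E * K * a) * (15 / 1000 * L) := mul_le_mul_of_nonneg_left h1 (by positivity)
    _ = _ := by ring

theorem Ev' (l : Lt K L s a b b1 h E v) : E ^ 2 * v ^ 2 ≤ 2601 / 100 := by
  have h1 := l.Ev
  have h2 : 0 ≤ E * v := mul_nonneg l.E0.le l.v0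
  nlinarith

theorem KLL (l : Lt K L s a b b1 h E v) : K * a ^ 2 ≤ 1 / 4000000 := by
  have h1 := l.KL
  have h2 := l.aL
  have h3 : (a * L) ^ 2 = 1 / 1000000 := l.aLL
  have h4 := mul_le_mul_of_nonneg_right h1 (sq_nonneg a)
  nlinarith

/-- term 4a -/
theorem t4a (l : Lt K L s a b b1 h E v) (A : ℝ) :
    -(26 / 10000 * L * A ^ 2) ≤ (-2 * E * K * a * v) * A ^ 2 := by
  have hE := l.E0
  have hL := l.L0
  have ha := l.a0
  have hK := l.K0
  have h1 : 2 * E * K * a * v ≤ 26 / 10000 * L := by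
    calc 2 * E * K * a * v = 2 * (E * v) * K * a := by ring
      _ ≤ 2 * (51 / 10) * (L ^ 2 / 4) * a := by
          gcongr
          · exact l.Ev
          · linarith [l.KL]
      _ = 2 * (51 / 10) / 4 * L * (a * L) := by ring
      _ = 2 * (51 / 10) / 4 * L * (1 / 1000) := by rw [l.aL]
      _ ≤ _ := by linarith
  have h2 := mul_le_mul_of_nonneg_right h1 (sq_nonneg A)
  linarith

/-- term 4b -/
theorem t4b (l : Lt K L s a b b1 h E v) (A ω : ℝ) :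
    -(3 / 1000 * L * A ^ 2 + 3 / 1000 * K * L * (v ^ 2 * ω ^ 2)) ≤
      (-2 * E * K * a * v) * (A * (v * ω)) := by
  have hE := l.E0
  have hL := l.L0
  have ha := l.a0
  have hK := l.K0
  refine amgm (g := 1) (by positivity) (by positivity) (by positivity) (by positivity)
    (le_of_eq (by ring)) ?_
  have h1 : K * a ^ 2 * (E ^ 2 * v ^ 2) ≤ 7 / 1000000 := by
    calc K * a ^ 2 * (E ^ 2 * v ^ 2) ≤ (1 / 4000000) * (2601 / 100) := by
          gcongr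
          · exact l.KLL
          · exact l.Ev'
      _ ≤ _ := by norm_num
  have h2 : 1 ≤ L ^ 2 := one_le_pow₀ l.L1'
  calc (-2 * E * K * a * v) ^ 2 * 1 = 4 * K * (K * a ^ 2 * (E ^ 2 * v ^ 2)) := by ring
    _ ≤ 4 * K * (7 / 1000000) := mul_le_mul_of_nonneg_left h1 (by positivity)
    _ ≤ 4 * K * (9 / 1000000) * 1 := by linarith
    _ ≤ 4 * K * (9 / 1000000) * L ^ 2 := mul_le_mul_of_nonneg_left h2 (by positivity)
    _ = _ := by ring

theorem Kb (l : Lt K L s a b b1 h E v) : K ^ 2 * b1 ≤ 1 / 100000 := by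
  have h1 := l.bLL
  have h2 := l.K0
  have h3 : K ≤ L := by rw [l.L1]; linarith
  have h4 := l.b0
  calc K ^ 2 * b1 ≤ L ^ 2 * b1 := by gcongr
    _ = b1 * L ^ 2 := by ring
    _ ≤ _ := h1.le

theorem Kb' (l : Lt K L s a b b1 h E v) : K * b1 ≤ 1 / 400000 := by
  have h1 := l.bLL
  have h4 := mul_le_mul_of_nonneg_left l.KL l.b0.le
  linarith

/-- term 4c -/
theorem t4c (l : Lt K L s a b b1 h E v) (A m2 C2 : ℝ) (hC : 0 ≤ C2) (hm : m2 ^ 2 ≤ v ^ 2 * C2) :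
    -(1 / 100 * h * b1 * L * C2 + 1 / 100 * L * A ^ 2) ≤
      (-2 * E * K * b1) * (m2 * A) := by
  have hE := l.E0
  have hL := l.L0
  have ha := l.a0
  have hb := l.b0
  have hK := l.K0
  have hh := l.h0
  refine amgm (g := v ^ 2) (by positivity) (by positivity) (by positivity) (by positivity) ?_ ?_
  · calc (m2 * A) ^ 2 = m2 ^ 2 * A ^ 2 := by ring
      _ ≤ v ^ 2 * C2 * A ^ 2 := by gcongr
      _ = _ := by ring
  have h2 : 1 ≤ L ^ 2 := one_le_pow₀ l.L1'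
  calc (-2 * E * K * b1) ^ 2 * v ^ 2 = 4 * b1 * E * (E * v ^ 2) * (K ^ 2 * b1) := by ring
    _ ≤ 4 * b1 * (2 * h) * (19 / 10) * (1 / 100000) := by
        have := l.Kb
        have := l.Ev2
        have := l.hEh
        gcongr
    _ ≤ 4 * (1 / 10000) * h * b1 * 1 := by
        have : 0 < h * b1 := by positivity
        linarith
    _ ≤ 4 * (1 / 10000) * h * b1 * L ^ 2 := mul_le_mul_of_nonneg_left h2 (by positivity)
    _ = _ := by ring

/-- term 4d -/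
theorem t4d (l : Lt K L s a b b1 h E v) (ω m2 C2 : ℝ) (hC : 0 ≤ C2) (hm : m2 ^ 2 ≤ v ^ 2 * C2) :
    -(1 / 100 * h * b1 * L * C2 + 1 / 100 * K * L * (v ^ 2 * ω ^ 2)) ≤
      (-2 * E * K * b1) * (m2 * (v * ω)) := by
  have hE := l.E0
  have hL := l.L0
  have ha := l.a0
  have hb := l.b0
  have hK := l.K0
  have hh := l.h0
  refine amgm (g := v ^ 2) (by positivity) (by positivity) (by positivity) (by positivity) ?_ ?_
  · calc (m2 * (v * ω)) ^ 2 = m2 ^ 2 * (v ^ 2 * ω ^ 2) := by ring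
      _ ≤ v ^ 2 * C2 * (v ^ 2 * ω ^ 2) := by gcongr
      _ = _ := by ring
  have h2 : 1 ≤ L ^ 2 := one_le_pow₀ l.L1'
  calc (-2 * E * K * b1) ^ 2 * v ^ 2 = 4 * b1 * K * E * (E * v ^ 2) * (K * b1) := by ring
    _ ≤ 4 * b1 * K * (2 * h) * (19 / 10) * (1 / 400000) := by
        have := l.Kb'
        have := l.Ev2
        have := l.hEh
        gcongr
    _ ≤ 4 * (1 / 10000) * (h * b1 * K) * 1 := by
        have : 0 < h * b1 * K := by positivity
        linarith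
    _ ≤ 4 * (1 / 10000) * (h * b1 * K) * L ^ 2 := mul_le_mul_of_nonneg_left h2 (by positivity)
    _ = _ := by ring

theorem KK (l : Lt K L s a b b1 h E v) : (K - 1) ^ 2 ≤ L ^ 2 := by
  rw [l.L1]
  have := l.K0
  nlinarith

theorem KK' (l : Lt K L s a b b1 h E v) : |K - 1| ≤ L := abs_le_of_sq_le_sq l.KK l.L0.le

/-- term 5, first part -/
theorem t5a (l : Lt K L s a b b1 h E v) (ω N : ℝ) (hN0 : 0 ≤ N)
    (hN : N ≤ 101 / 100 * a * v ^ 2) :
    -(6 / 1000 * K * L * (v ^ 2 * ω ^ 2)) ≤ (E * K * (K - 1)) * (N * (v * ω ^ 2)) := by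
  have hE := l.E0
  have hL := l.L0
  have ha := l.a0
  have hK := l.K0
  have hv := l.v0
  have h1 : |(E * K * (K - 1)) * (N * (v * ω ^ 2))| ≤ 6 / 1000 * K * L * (v ^ 2 * ω ^ 2) := by
    rw [abs_mul, abs_mul, abs_of_nonneg (show 0 ≤ E * K by positivity),
      abs_of_nonneg (show 0 ≤ N * (v * ω ^ 2) by positivity)]
    calc E * K * |K - 1| * (N * (v * ω ^ 2))
        ≤ E * K * L * (101 / 100 * a * v ^ 2 * (v * ω ^ 2)) := by
          have := l.KK'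
          gcongr
      _ = 101 / 100 * (E * v) * a * (K * L * (v ^ 2 * ω ^ 2)) := by ring
      _ ≤ 101 / 100 * (51 / 10) * (1 / 1000) * (K * L * (v ^ 2 * ω ^ 2)) := by
          have := l.Ev
          have := l.a1
          gcongr
      _ ≤ 6 / 1000 * (K * L * (v ^ 2 * ω ^ 2)) := by
          have : 0 ≤ K * L * (v ^ 2 * ω ^ 2) := by positivity
          linarith
      _ = _ := by ring
  exact (abs_le.mp h1).1

/-- term 5, second part -/
theorem t5b (l : Lt K L s a b b1 h E v) (ω A N : ℝ) (hN0 : 0 ≤ N)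
    (hN : N ≤ 101 / 100 * a * v ^ 2) :
    -(3 / 1000 * L * A ^ 2 + 3 / 1000 * K * L * (v ^ 2 * ω ^ 2)) ≤
      (E * K * (K - 1)) * (N * (ω * A)) := by
  have hE := l.E0
  have hL := l.L0
  have ha := l.a0
  have hK := l.K0
  have hv := l.v0
  refine amgm (g := (101 / 100 * a) ^ 2 * v ^ 2) (by positivity) (by positivity) (by positivity)
    (by positivity) ?_ ?_
  · calc (N * (ω * A)) ^ 2 = N ^ 2 * (ω ^ 2 * A ^ 2) := by ring
      _ ≤ (101 / 100 * a * v ^ 2) ^ 2 * (ω ^ 2 * A ^ 2) := by gcongr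
      _ = _ := by ring
  calc (E * K * (K - 1)) ^ 2 * ((101 / 100 * a) ^ 2 * v ^ 2)
      = (101 / 100) ^ 2 * K * (K * a ^ 2) * (E ^ 2 * v ^ 2) * (K - 1) ^ 2 := by ring
    _ ≤ (101 / 100) ^ 2 * K * (1 / 4000000) * (2601 / 100) * L ^ 2 := by
        have := l.KLL
        have := l.Ev'
        have := l.KK
        gcongr
    _ ≤ 4 * (9 / 1000000) * (K * L ^ 2) := by
        have : 0 ≤ K * L ^ 2 := by positivity
        linarith
    _ = _ := by ring

/-- term 6 -/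
theorem t6 (l : Lt K L s a b b1 h E v) (ω A Y N : ℝ) (hN0 : 0 ≤ N)
    (hN : N ≤ 101 / 100 * a * v ^ 2) :
    -(2 / 10 * E * N * Y ^ 2 + 77 / 1000 * L * A ^ 2 + 77 / 1000 * K * L * (v ^ 2 * ω ^ 2)) ≤
      4 * E * N * (K * ((A + v * ω) * Y)) := by
  have hE := l.E0
  have hL := l.L0
  have ha := l.a0
  have hK := l.K0
  have hv := l.v0
  have h1 : -(2 / 10 * Y ^ 2 + 20 * K ^ 2 * (A + v * ω) ^ 2) ≤ 4 * (K * ((A + v * ω) * Y)) := by
    nlinarith [sq_nonneg (Y + 10 * K * (A + v * ω))]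
  have h2 := mul_le_mul_of_nonneg_left h1 (show 0 ≤ E * N by positivity)
  have h3 : E * N * (20 * K ^ 2 * (A + v * ω) ^ 2) ≤
      77 / 1000 * K * (A ^ 2 + v ^ 2 * ω ^ 2) := by
    calc E * N * (20 * K ^ 2 * (A + v * ω) ^ 2)
        ≤ E * (101 / 100 * a * v ^ 2) * (20 * K ^ 2 * (2 * (A ^ 2 + v ^ 2 * ω ^ 2))) := by
          gcongr
          nlinarith [sq_nonneg (A - v * ω)]
      _ = (101 / 100) * 40 * (E * v ^ 2) * (K * a) * K * (A ^ 2 + v ^ 2 * ω ^ 2) := by ring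
      _ ≤ (101 / 100) * 40 * (19 / 10) * (1 / 1000) * K * (A ^ 2 + v ^ 2 * ω ^ 2) := by
          have := l.Ev2
          have : K * a ≤ 1 / 1000 := by
            have h3 : K ≤ L := by rw [l.L1]; linarith
            calc K * a ≤ L * a := by gcongr
              _ = a * L := by ring
              _ ≤ _ := l.aL.le
          gcongr
      _ = 101 / 100 * 40 * (19 / 10) * (1 / 1000) * (K * (A ^ 2 + v ^ 2 * ω ^ 2)) := by ring
      _ ≤ 77 / 1000 * (K * (A ^ 2 + v ^ 2 * ω ^ 2)) := by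
          have : 0 ≤ K * (A ^ 2 + v ^ 2 * ω ^ 2) := by positivity
          linarith
      _ = _ := by ring
  have h4 : K * A ^ 2 ≤ L * A ^ 2 := by
    have h3 : K ≤ L := by rw [l.L1]; linarith
    gcongr
  have h5 : K * (v ^ 2 * ω ^ 2) * 1 ≤ K * (v ^ 2 * ω ^ 2) * L := by
    have := l.L1'
    gcongr
  linarith

theorem ha' (l : Lt K L s a b b1 h E v) : (1 + h * a) ^ 2 ≤ 1057 / 1000 := by
  have h1 := l.ha
  have h2 : 0 ≤ h * a := mul_nonneg l.h0.le l.a0.le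
  nlinarith

/-- term 7a -/
theorem t7a (l : Lt K L s a b b1 h E v) (A yh C2 : ℝ) (hC : 0 ≤ C2)
    (hy : yh ^ 2 ≤ s ^ 2 * C2) :
    -(36 / 100 * h * b1 * L * C2 + 15 / 100 * L * A ^ 2) ≤ (1 + h * a) * (yh * A) := by
  have hE := l.E0
  have hL := l.L0
  have ha := l.a0
  have hb := l.b0
  have hK := l.K0
  have hh := l.h0
  refine amgm (g := s ^ 2) (by positivity) (by positivity) (by positivity) (by positivity) ?_ ?_
  · calc (yh * A) ^ 2 = yh ^ 2 * A ^ 2 := by ring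
      _ ≤ s ^ 2 * C2 * A ^ 2 := by gcongr
      _ = _ := by ring
  calc (1 + h * a) ^ 2 * s ^ 2 ≤ 1057 / 1000 * (1 / 1000000) := by
        have := l.ha'
        have := l.s1
        gcongr
    _ ≤ 4 * (36 / 100) * (15 / 100) * (1 / 2) * (1 / 100000) := by norm_num
    _ ≤ 4 * (36 / 100) * (15 / 100) * h * (1 / 100000) := by
        have := l.hh
        gcongr
    _ = 4 * (36 / 100) * (15 / 100) * h * (b1 * L ^ 2) := by rw [l.bLL]
    _ = _ := by ring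

/-- term 7b -/
theorem t7b (l : Lt K L s a b b1 h E v) (ω yh C2 : ℝ) (hC : 0 ≤ C2)
    (hy : yh ^ 2 ≤ s ^ 2 * C2) :
    -(27 / 100 * h * b1 * L * C2 + 2 / 10 * K * L * (v ^ 2 * ω ^ 2)) ≤
      (1 + h * a) * (yh * (v * ω)) := by
  have hE := l.E0
  have hL := l.L0
  have ha := l.a0
  have hb := l.b0
  have hK := l.K0
  have hh := l.h0
  refine amgm (g := s ^ 2) (by positivity) (by positivity) (by positivity) (by positivity) ?_ ?_
  · calc (yh * (v * ω)) ^ 2 = yh ^ 2 * (v ^ 2 * ω ^ 2) := by ring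
      _ ≤ s ^ 2 * C2 * (v ^ 2 * ω ^ 2) := by gcongr
      _ = _ := by ring
  calc (1 + h * a) ^ 2 * s ^ 2 ≤ 1057 / 1000 * (K / 1000000) := by
        have := l.ha'
        have := l.s2
        gcongr
    _ ≤ 4 * (27 / 100) * (2 / 10) * (1 / 2) * (1 / 100000) * K := by linarith
    _ ≤ 4 * (27 / 100) * (2 / 10) * h * (1 / 100000) * K := by
        have := l.hh
        gcongr
    _ = 4 * (27 / 100) * (2 / 10) * h * (b1 * L ^ 2) * K := by rw [l.bLL]
    _ = _ := by ring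

/-- term 7c -/
theorem t7c (l : Lt K L s a b b1 h E v) (Y yh C2 : ℝ) (hC : 0 ≤ C2)
    (hy : yh ^ 2 ≤ s ^ 2 * C2) :
    -(2 / 100 * h * b1 * L * C2 + 2 / 100 * E * a * (v ^ 2 * Y ^ 2)) ≤
      (-2 * E * a) * (yh * (v * Y)) := by
  have hE := l.E0
  have hL := l.L0
  have ha := l.a0
  have hb := l.b0
  have hK := l.K0
  have hh := l.h0
  refine amgm (g := s ^ 2) (by positivity) (by positivity) (by positivity) (by positivity) ?_ ?_
  · calc (yh * (v * Y)) ^ 2 = yh ^ 2 * (v ^ 2 * Y ^ 2) := by ring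
      _ ≤ s ^ 2 * C2 * (v ^ 2 * Y ^ 2) := by gcongr
      _ = _ := by ring
  calc (-2 * E * a) ^ 2 * s ^ 2 = 4 * E * E * a ^ 2 * s ^ 2 := by ring
    _ ≤ 4 * E * (2 * h) * a ^ 2 * (1 / 1000000) := by
        have := l.hEh
        have := l.s1
        gcongr
    _ ≤ 16 / 1000000 * (E * h * a ^ 2) := by
        have : 0 ≤ E * h * a ^ 2 := by positivity
        linarith
    _ = 4 * (2 / 100) * (2 / 100) * h * (a / 100) * E * a := by ring
    _ = 4 * (2 / 100) * (2 / 100) * h * (b1 * L) * E * a := by rw [l.bL]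
    _ = _ := by ring

/-- term 7d -/
theorem t7d (l : Lt K L s a b b1 h E v) (A yh C2 : ℝ) (hC : 0 ≤ C2)
    (hy : yh ^ 2 ≤ s ^ 2 * C2) :
    -(1 / 1000 * h * b1 * L * C2 + 1 / 1000 * L * A ^ 2) ≤ (-2 * E * a * v) * (yh * A) := by
  have hE := l.E0
  have hL := l.L0
  have ha := l.a0
  have hb := l.b0
  have hK := l.K0
  have hh := l.h0
  refine amgm (g := s ^ 2) (by positivity) (by positivity) (by positivity) (by positivity) ?_ ?_
  · calc (yh * A) ^ 2 = yh ^ 2 * A ^ 2 := by ring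
      _ ≤ s ^ 2 * C2 * A ^ 2 := by gcongr
      _ = _ := by ring
  calc (-2 * E * a * v) ^ 2 * s ^ 2 = 4 * E * (E * v ^ 2) * a ^ 2 * s ^ 2 := by ring
    _ ≤ 4 * (2 * h) * (19 / 10) * (1 / 1000) ^ 2 * (1 / 1000000) := by
        have := l.hEh
        have := l.s1
        have := l.Ev2
        have := l.a1
        gcongr
    _ ≤ 4 * (1 / 1000) * (1 / 1000) * h * (1 / 100000) := by linarith
    _ = 4 * (1 / 1000) * (1 / 1000) * h * (b1 * L ^ 2) := by rw [l.bLL]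
    _ = _ := by ring

/-- term 7e -/
theorem t7e (l : Lt K L s a b b1 h E v) (m2 yh C2 : ℝ) (hC : 0 ≤ C2)
    (hm : m2 ^ 2 ≤ v ^ 2 * C2) (hy : yh ^ 2 ≤ s ^ 2 * C2) :
    -(11 / 1000 * h * b1 * L * C2 + 11 / 1000 * h * b1 * L * C2) ≤
      (-2 * E * b1) * (m2 * yh) := by
  have hE := l.E0
  have hL := l.L0
  have ha := l.a0
  have hb := l.b0
  have hK := l.K0
  have hh := l.h0
  refine amgm (g := v ^ 2 * s ^ 2) (by positivity) (by positivity) (by positivity)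
    (by positivity) ?_ ?_
  · calc (m2 * yh) ^ 2 = m2 ^ 2 * yh ^ 2 := by ring
      _ ≤ v ^ 2 * C2 * (s ^ 2 * C2) := by gcongr
      _ = _ := by ring
  have h2 : 1 ≤ L ^ 2 := one_le_pow₀ l.L1'
  calc (-2 * E * b1) ^ 2 * (v ^ 2 * s ^ 2) = 4 * b1 ^ 2 * (E ^ 2 * v ^ 2) * s ^ 2 := by ring
    _ ≤ 4 * b1 ^ 2 * (2601 / 100) * (1 / 1000000) := by
        have := l.Ev'
        have := l.s1
        gcongr
    _ ≤ 4 * (11 / 1000) * (11 / 1000) * (1 / 2) ^ 2 * b1 ^ 2 * 1 := by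
        have : 0 ≤ b1 ^ 2 := by positivity
        linarith
    _ ≤ 4 * (11 / 1000) * (11 / 1000) * h ^ 2 * b1 ^ 2 * L ^ 2 := by
        have := l.hh
        gcongr
    _ = _ := by ring

/-- term 7f -/
theorem t7f (l : Lt K L s a b b1 h E v) (ω yh C2 N : ℝ) (hC : 0 ≤ C2)
    (hy : yh ^ 2 ≤ s ^ 2 * C2) (hN0 : 0 ≤ N) (hN : N ≤ 101 / 100 * a * v ^ 2) :
    -(1 / 1000 * K * L * (v ^ 2 * ω ^ 2) + 1 / 1000 * h * b1 * L * C2) ≤
      (E * (K - 1)) * (N * (ω * yh)) := by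
  have hE := l.E0
  have hL := l.L0
  have ha := l.a0
  have hb := l.b0
  have hK := l.K0
  have hh := l.h0
  refine amgm (g := (101 / 100 * a) ^ 2 * v ^ 2 * s ^ 2) (by positivity) (by positivity)
    (by positivity) (by positivity) ?_ ?_
  · calc (N * (ω * yh)) ^ 2 = N ^ 2 * ω ^ 2 * yh ^ 2 := by ring
      _ ≤ (101 / 100 * a * v ^ 2) ^ 2 * ω ^ 2 * (s ^ 2 * C2) := by gcongr
      _ = _ := by ring
  calc (E * (K - 1)) ^ 2 * ((101 / 100 * a) ^ 2 * v ^ 2 * s ^ 2)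
      = (101 / 100) ^ 2 * E * (E * v ^ 2) * (a ^ 2 * (K - 1) ^ 2) * s ^ 2 := by ring
    _ ≤ (101 / 100) ^ 2 * (2 * h) * (19 / 10) * (1 / 1000000) * (K / 1000000) := by
        have := l.hEh
        have := l.s2
        have := l.Ev2
        have h1 := l.KK
        have : a ^ 2 * (K - 1) ^ 2 ≤ 1 / 1000000 := by
          calc a ^ 2 * (K - 1) ^ 2 ≤ a ^ 2 * L ^ 2 := by gcongr
            _ = (a * L) ^ 2 := by ring
            _ ≤ _ := l.aLL.le
        gcongr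
    _ ≤ 4 * (1 / 1000) * (1 / 1000) * h * (1 / 100000) * K := by
        have : 0 ≤ h * K := by positivity
        linarith
    _ = 4 * (1 / 1000) * (1 / 1000) * h * (b1 * L ^ 2) * K := by rw [l.bLL]
    _ = _ := by ring

/-- term 7g -/
theorem t7g (l : Lt K L s a b b1 h E v) (Y yh C2 N : ℝ) (hC : 0 ≤ C2)
    (hy : yh ^ 2 ≤ s ^ 2 * C2) (hN0 : 0 ≤ N) (hN : N ≤ 101 / 100 * a * v ^ 2) :
    -(4 / 100 * E * N * Y ^ 2 + 4 / 100 * h * b1 * L * C2) ≤
      4 * E * N * (Y * yh) := by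
  have hE := l.E0
  have hL := l.L0
  have ha := l.a0
  have hb := l.b0
  have hK := l.K0
  have hh := l.h0
  have h1 : -(4 / 100 * Y ^ 2 + 100 * yh ^ 2) ≤ 4 * (Y * yh) := by
    nlinarith [sq_nonneg (Y + 50 * yh)]
  have h2 := mul_le_mul_of_nonneg_left h1 (show 0 ≤ E * N by positivity)
  have h3 : E * N * (100 * yh ^ 2) ≤ 4 / 100 * h * b1 * L * C2 := by
    calc E * N * (100 * yh ^ 2) ≤ E * (101 / 100 * a * v ^ 2) * (100 * (s ^ 2 * C2)) := by gcongr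
      _ = 101 * (E * v ^ 2) * s ^ 2 * (a * C2) := by ring
      _ ≤ 101 * (19 / 10) * (1 / 1000000) * (a * C2) := by
          have := l.Ev2
          have := l.s1
          gcongr
      _ ≤ 4 / 100 * (1 / 2) / 100 * (a * C2) := by
          have : 0 ≤ a * C2 := by positivity
          linarith
      _ ≤ 4 / 100 * h / 100 * (a * C2) := by
          have := l.hh
          gcongr
      _ = 4 / 100 * h * (a / 100) * C2 := by ring
      _ = 4 / 100 * h * (b1 * L) * C2 := by rw [l.bL]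
      _ = _ := by ring
  linarith

/-- term 8a -/
theorem t8a (l : Lt K L s a b b1 h E v) (ω yb : ℝ) (hy0 : 0 ≤ yb) :
    yb * v * ω ^ 2 ≤ (1 + h * a) * (yb * v * ω ^ 2) := by
  have h1 : 0 ≤ h * a := mul_nonneg l.h0.le l.a0.le
  have h2 : 0 ≤ yb * v * ω ^ 2 := mul_nonneg (mul_nonneg hy0 l.v0) (sq_nonneg _)
  nlinarith [mul_nonneg h1 h2]

theorem yb2 (_l : Lt K L s a b b1 h E v) {yb : ℝ} (hy0 : 0 ≤ yb) (hy : yb ≤ s * v) :
    yb ^ 2 ≤ s ^ 2 * v ^ 2 := by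
  calc yb ^ 2 ≤ (s * v) ^ 2 := pow_le_pow_left₀ hy0 hy 2
    _ = _ := by ring

/-- term 8b -/
theorem t8b (l : Lt K L s a b b1 h E v) (ω A yb : ℝ) (hy : yb ^ 2 ≤ s ^ 2 * v ^ 2) :
    -(1 / 1000 * L * A ^ 2 + 1 / 1000 * K * L * (v ^ 2 * ω ^ 2)) ≤
      (1 + h * a) * (yb * (ω * A)) := by
  have hE := l.E0
  have hL := l.L0
  have ha := l.a0
  have hb := l.b0
  have hK := l.K0
  have hh := l.h0
  refine amgm (g := s ^ 2) (by positivity) (by positivity) (by positivity) (by positivity) ?_ ?_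
  · calc (yb * (ω * A)) ^ 2 = yb ^ 2 * (ω ^ 2 * A ^ 2) := by ring
      _ ≤ s ^ 2 * v ^ 2 * (ω ^ 2 * A ^ 2) := by gcongr
      _ = _ := by ring
  have h2 : 1 ≤ L ^ 2 := one_le_pow₀ l.L1'
  calc (1 + h * a) ^ 2 * s ^ 2 ≤ 1057 / 1000 * (K / 1000000) := by
        have := l.ha'
        have := l.s2
        gcongr
    _ ≤ 4 / 1000000 * K * 1 := by linarith
    _ ≤ 4 / 1000000 * K * L ^ 2 := by gcongr
    _ = _ := by ring

/-- term 8c -/
theorem t8c (l : Lt K L s a b b1 h E v) (ω Y yb : ℝ) (hy : yb ^ 2 ≤ s ^ 2 * v ^ 2) :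
    -(1 / 1000 * K * L * (v ^ 2 * ω ^ 2) + 1 / 1000 * E * a * (v ^ 2 * Y ^ 2)) ≤
      (-2 * E * a) * (yb * (ω * (v * Y))) := by
  have hE := l.E0
  have hL := l.L0
  have ha := l.a0
  have hb := l.b0
  have hK := l.K0
  have hh := l.h0
  refine amgm (g := s ^ 2) (by positivity) (by positivity) (by positivity) (by positivity) ?_ ?_
  · calc (yb * (ω * (v * Y))) ^ 2 = yb ^ 2 * (ω ^ 2 * (v ^ 2 * Y ^ 2)) := by ring
      _ ≤ s ^ 2 * v ^ 2 * (ω ^ 2 * (v ^ 2 * Y ^ 2)) := by gcongr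
      _ = _ := by ring
  have h2 := l.L1'
  calc (-2 * E * a) ^ 2 * s ^ 2 = 4 * E * a * E * a * s ^ 2 := by ring
    _ ≤ 4 * E * a * 55 * (1 / 1000) * (K / 1000000) := by
        have := l.E1
        have := l.a1
        have := l.s2
        gcongr
    _ ≤ 4 / 1000000 * (E * a * K) * 1 := by
        have : 0 ≤ E * a * K := by positivity
        linarith
    _ ≤ 4 / 1000000 * (E * a * K) * L := by gcongr
    _ = _ := by ring

/-- term 8d -/
theorem t8d (l : Lt K L s a b b1 h E v) (ω A yb : ℝ) (hy : yb ^ 2 ≤ s ^ 2 * v ^ 2) :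
    -(1 / 1000 * L * A ^ 2 + 1 / 1000 * K * L * (v ^ 2 * ω ^ 2)) ≤
      (-2 * E * a * v) * (yb * (ω * A)) := by
  have hE := l.E0
  have hL := l.L0
  have ha := l.a0
  have hb := l.b0
  have hK := l.K0
  have hh := l.h0
  refine amgm (g := s ^ 2) (by positivity) (by positivity) (by positivity) (by positivity) ?_ ?_
  · calc (yb * (ω * A)) ^ 2 = yb ^ 2 * (ω ^ 2 * A ^ 2) := by ring
      _ ≤ s ^ 2 * v ^ 2 * (ω ^ 2 * A ^ 2) := by gcongr
      _ = _ := by ring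
  have h2 : 1 ≤ L ^ 2 := one_le_pow₀ l.L1'
  calc (-2 * E * a * v) ^ 2 * s ^ 2 = 4 * (E ^ 2 * v ^ 2) * a ^ 2 * s ^ 2 := by ring
    _ ≤ 4 * (2601 / 100) * (1 / 1000) ^ 2 * (K / 1000000) := by
        have := l.Ev'
        have := l.a1
        have := l.s2
        gcongr
    _ ≤ 4 / 1000000 * K * 1 := by linarith
    _ ≤ 4 / 1000000 * K * L ^ 2 := by gcongr
    _ = _ := by ring

/-- term 8e -/
theorem t8e (l : Lt K L s a b b1 h E v) (ω m2 C2 yb : ℝ) (hC : 0 ≤ C2)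
    (hm : m2 ^ 2 ≤ v ^ 2 * C2) (hy : yb ^ 2 ≤ s ^ 2 * v ^ 2) :
    -(1 / 1000 * h * b1 * L * C2 + 1 / 1000 * K * L * (v ^ 2 * ω ^ 2)) ≤
      (-2 * E * b1) * (m2 * (yb * ω)) := by
  have hE := l.E0
  have hL := l.L0
  have ha := l.a0
  have hb := l.b0
  have hK := l.K0
  have hh := l.h0
  refine amgm (g := v ^ 2 * s ^ 2) (by positivity) (by positivity) (by positivity)
    (by positivity) ?_ ?_
  · calc (m2 * (yb * ω)) ^ 2 = m2 ^ 2 * (yb ^ 2 * ω ^ 2) := by ring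
      _ ≤ v ^ 2 * C2 * (s ^ 2 * v ^ 2 * ω ^ 2) := by gcongr
      _ = _ := by ring
  have h2 : 1 ≤ L ^ 2 := one_le_pow₀ l.L1'
  have h3 : b1 ≤ 1 / 100000 := by linarith [l.b1a, l.a1]
  calc (-2 * E * b1) ^ 2 * (v ^ 2 * s ^ 2) = 4 * E * (E * v ^ 2) * b1 * b1 * s ^ 2 := by ring
    _ ≤ 4 * (2 * h) * (19 / 10) * b1 * (1 / 100000) * (K / 1000000) := by
        have := l.hEh
        have := l.Ev2
        have := l.s2
        gcongr
    _ ≤ 4 / 1000000 * (h * b1 * K) * 1 := by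
        have : 0 ≤ h * b1 * K := by positivity
        linarith
    _ ≤ 4 / 1000000 * (h * b1 * K) * L ^ 2 := by gcongr
    _ = _ := by ring

/-- term 8f -/
theorem t8f (l : Lt K L s a b b1 h E v) (ω yb N : ℝ) (hy0 : 0 ≤ yb) (hN0 : 0 ≤ N)
    (hN : N ≤ 101 / 100 * a * v ^ 2) :
    -(52 / 10000 * (yb * v * ω ^ 2)) ≤ (E * (K - 1)) * (N * (yb * ω ^ 2)) := by
  have hE := l.E0
  have hL := l.L0
  have ha := l.a0
  have hK := l.K0
  have hv := l.v0
  have h1 : |(E * (K - 1)) * (N * (yb * ω ^ 2))| ≤ 52 / 10000 * (yb * v * ω ^ 2) := by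
    rw [abs_mul, abs_mul, abs_of_nonneg hE.le,
      abs_of_nonneg (show 0 ≤ N * (yb * ω ^ 2) by positivity)]
    calc E * |K - 1| * (N * (yb * ω ^ 2))
        ≤ E * L * (101 / 100 * a * v ^ 2 * (yb * ω ^ 2)) := by
          have := l.KK'
          gcongr
      _ = 101 / 100 * (E * v) * (a * L) * (yb * v * ω ^ 2) := by ring
      _ ≤ 101 / 100 * (51 / 10) * (a * L) * (yb * v * ω ^ 2) := by
          have := l.Ev
          gcongr
      _ = 101 / 100 * (51 / 10) * (1 / 1000) * (yb * v * ω ^ 2) := by rw [l.aL]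
      _ ≤ _ := by
          have : 0 ≤ yb * v * ω ^ 2 := by positivity
          linarith
  exact (abs_le.mp h1).1

/-- term 8g -/
theorem t8g (l : Lt K L s a b b1 h E v) (ω Y yb N : ℝ) (hy : yb ^ 2 ≤ s ^ 2 * v ^ 2)
    (hN0 : 0 ≤ N) (hN : N ≤ 101 / 100 * a * v ^ 2) :
    -(4 / 1000 * E * N * Y ^ 2 + 1 / 1000 * K * L * (v ^ 2 * ω ^ 2)) ≤
      4 * E * N * (Y * (yb * ω)) := by
  have hE := l.E0
  have hL := l.L0
  have ha := l.a0
  have hb := l.b0
  have hK := l.K0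
  have hh := l.h0
  have h1 : -(4 / 1000 * Y ^ 2 + 1000 * (yb ^ 2 * ω ^ 2)) ≤ 4 * (Y * (yb * ω)) := by
    nlinarith [sq_nonneg (Y + 500 * (yb * ω))]
  have h2 := mul_le_mul_of_nonneg_left h1 (show 0 ≤ E * N by positivity)
  have h3 : E * N * (1000 * (yb ^ 2 * ω ^ 2)) ≤ 1 / 1000 * K * L * (v ^ 2 * ω ^ 2) := by
    calc E * N * (1000 * (yb ^ 2 * ω ^ 2))
        ≤ E * (101 / 100 * a * v ^ 2) * (1000 * (s ^ 2 * v ^ 2 * ω ^ 2)) := by gcongr
      _ = 1010 * (E * v ^ 2) * a * s ^ 2 * (v ^ 2 * ω ^ 2) := by ring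
      _ ≤ 1010 * (19 / 10) * (1 / 1000) * (K / 1000000) * (v ^ 2 * ω ^ 2) := by
          have := l.Ev2
          have := l.s2
          have := l.a1
          gcongr
      _ ≤ 1 / 1000 * (K * (v ^ 2 * ω ^ 2)) * 1 := by
          have : 0 ≤ K * (v ^ 2 * ω ^ 2) := by positivity
          linarith
      _ ≤ 1 / 1000 * (K * (v ^ 2 * ω ^ 2)) * L := by
          have := l.L1'
          gcongr
      _ = _ := by ring
  linarith

/-- term 9 -/
theorem t9 (l : Lt K L s a b b1 h E v) (ω Y S7 C2 : ℝ) (hC : 0 ≤ C2)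
    (hS : S7 ^ 2 ≤ 8 * s ^ 4 * v ^ 2 * (C2 + v ^ 2 * ω ^ 2)) :
    -(1 / 1000 * h * b1 * L * C2 + 1 / 1000 * K * L * (v ^ 2 * ω ^ 2)
      + 1 / 100 * E * a * (v ^ 2 * Y ^ 2)) ≤ (-2 * E * b) * (S7 * Y) := by
  have hE := l.E0
  have hL := l.L0
  have ha := l.a0
  have hb := l.b0
  have hK := l.K0
  have hh := l.h0
  have hs := l.s0
  have hbb := l.bb
  have h0 : 0 ≤ 800 * E * b1 ^ 2 * s ^ 2 / a := by positivity
  have h1 : -((800 * E * b1 ^ 2 * s ^ 2 / a) * (C2 + v ^ 2 * ω ^ 2)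
      + 1 / 100 * E * a * (v ^ 2 * Y ^ 2)) ≤ (-2 * E * b) * (S7 * Y) := by
    refine amgm (g := 8 * s ^ 4) h0 (by positivity) (by positivity)
      (by positivity) ?_ ?_
    · calc (S7 * Y) ^ 2 = S7 ^ 2 * Y ^ 2 := by ring
        _ ≤ 8 * s ^ 4 * v ^ 2 * (C2 + v ^ 2 * ω ^ 2) * Y ^ 2 := by gcongr
        _ = _ := by ring
    · have h2 : (-2 * E * b) ^ 2 * (8 * s ^ 4) = 32 * E ^ 2 * b1 ^ 2 * s ^ 2 := by
        rw [← l.bs]
        ring
      have h3 : 4 * (800 * E * b1 ^ 2 * s ^ 2 / a) * (1 / 100 * E * a)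
          = 32 * E ^ 2 * b1 ^ 2 * s ^ 2 := by
        field_simp
        ring
      rw [h2, h3]
  have h3 : b1 ≤ 1 / 100000 := by linarith [l.b1a, l.a1]
  have h4 : 800 * E * b1 ^ 2 * s ^ 2 / a ≤ 1 / 1000 * h * b1 * L := by
    rw [div_le_iff₀ ha]
    calc 800 * E * b1 ^ 2 * s ^ 2 = 800 * E * b1 * b1 * s ^ 2 := by ring
      _ ≤ 800 * (2 * h) * b1 * (a / 100) * (1 / 1000000) := by
          have := l.hEh
          have := l.b1a
          have := l.s1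
          gcongr
      _ ≤ 1 / 1000 * h * b1 * 1 * a := by
          have : 0 ≤ h * b1 * a := by positivity
          linarith
      _ ≤ 1 / 1000 * h * b1 * L * a := by
          have := l.L1'
          gcongr
  have h5 : 800 * E * b1 ^ 2 * s ^ 2 / a ≤ 1 / 1000 * K * L := by
    rw [div_le_iff₀ ha]
    calc 800 * E * b1 ^ 2 * s ^ 2 = 800 * E * b1 * b1 * s ^ 2 := by ring
      _ ≤ 800 * 55 * (1 / 100000) * (a / 100) * (K / 1000000) := by
          have := l.E1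
          have := l.b1a
          have := l.s2
          gcongr
      _ ≤ 1 / 1000 * K * 1 * a := by
          have : 0 ≤ K * a := by positivity
          linarith
      _ ≤ 1 / 1000 * K * L * a := by
          have := l.L1'
          gcongr
  have h6 := mul_le_mul_of_nonneg_right h4 hC
  have h7 := mul_le_mul_of_nonneg_right h5 (show 0 ≤ v ^ 2 * ω ^ 2 by positivity)
  linarith

/-- The inequality for the letters. -/
theorem main (l : Lt K L s a b b1 h E v) (ω Y A m2 C2 N2 yh yb S6 S7 : ℝ)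
    (hm : m2 ^ 2 ≤ v ^ 2 * C2) (hC : 0 ≤ C2) (hN0 : 0 ≤ N2) (hN2 : N2 ≤ v ^ 2)
    (hyh : yh ^ 2 ≤ s ^ 2 * C2) (hyb0 : 0 ≤ yb) (hyb : yb ≤ s * v) (hS6 : 0 ≤ S6)
    (hS7 : S7 ^ 2 ≤ 8 * s ^ 4 * v ^ 2 * (C2 + v ^ 2 * ω ^ 2)) :
    1 / 2 * ((1 + K) * A ^ 2 + K * (1 + K) * v ^ 2 * ω ^ 2) ≤
      Qp K a b1 b v ω Y A m2 C2 N2 yh yb S6 S7 h E := by
  have hE := l.E0
  have hL := l.L0
  have ha := l.a0
  have hb := l.b0
  have hK := l.K0
  have hh := l.h0
  have hbb := l.bb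
  have hv := l.v0
  obtain ⟨N, hN⟩ : ∃ N, N = a * v ^ 2 + b1 * N2 := ⟨_, rfl⟩
  have hNn : 0 ≤ N := by rw [hN]; positivity
  have hNl : a * v ^ 2 ≤ N := by
    rw [hN]
    have : 0 ≤ b1 * N2 := by positivity
    linarith
  have hNu : N ≤ 101 / 100 * a * v ^ 2 := by
    rw [hN]
    have : b1 * N2 ≤ a / 100 * v ^ 2 := by
      have := l.b1a
      gcongr
    linarith
  have hyb2 := l.yb2 hyb0 hyb
  have e : Qp K a b1 b v ω Y A m2 C2 N2 yh yb S6 S7 h E =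
      (1 + h * a) * (L * A ^ 2 + K * L * (v ^ 2 * ω ^ 2))
      + (h * b1 * L * C2 + h * b1 * K * L * N2 * ω ^ 2)
      + (-2 * E * (2 + K) * a) * (A * (v * Y))
      + (-2 * E * (2 + K) * b1) * (m2 * Y)
      + (2 * E * K) * (N * (ω * Y))
      + (-2 * E * K * a * v) * A ^ 2
      + (-2 * E * K * a * v) * (A * (v * ω))
      + (-2 * E * K * b1) * (m2 * A)
      + (-2 * E * K * b1) * (m2 * (v * ω))
      + (E * K * (K - 1)) * (N * (v * ω ^ 2))
      + (E * K * (K - 1)) * (N * (ω * A))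
      + 4 * E * N * Y ^ 2
      + 4 * E * N * (K * ((A + v * ω) * Y))
      + (1 + h * a) * (yh * A)
      + (1 + h * a) * (yh * (v * ω))
      + (-2 * E * a) * (yh * (v * Y))
      + (-2 * E * a * v) * (yh * A)
      + (-2 * E * b1) * (m2 * yh)
      + (E * (K - 1)) * (N * (ω * yh))
      + 4 * E * N * (Y * yh)
      + (1 + h * a) * (yb * v * ω ^ 2)
      + (1 + h * a) * (yb * (ω * A))
      + (-2 * E * a) * (yb * (ω * (v * Y)))
      + (-2 * E * a * v) * (yb * (ω * A))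
      + (-2 * E * b1) * (m2 * (yb * ω))
      + (E * (K - 1)) * (N * (yb * ω ^ 2))
      + 4 * E * N * (Y * (yb * ω))
      + b * h * S6 + (-2 * E * b) * (S7 * Y) := by
    unfold Qp
    rw [hN, l.L1]
    ring
  have g1 : L * A ^ 2 + K * L * (v ^ 2 * ω ^ 2) ≤
      (1 + h * a) * (L * A ^ 2 + K * L * (v ^ 2 * ω ^ 2)) := by
    have : 0 ≤ (h * a) * (L * A ^ 2 + K * L * (v ^ 2 * ω ^ 2)) := by positivity
    linarith
  have g2 : 0 ≤ h * b1 * K * L * N2 * ω ^ 2 := by positivity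
  have g3 : 0 ≤ b * h * S6 := by positivity
  have g4 : E * a * (v ^ 2 * Y ^ 2) ≤ E * N * Y ^ 2 := by
    calc E * a * (v ^ 2 * Y ^ 2) = E * (a * v ^ 2) * Y ^ 2 := by ring
      _ ≤ _ := by gcongr
  have g5 : 0 ≤ L * A ^ 2 := by positivity
  have g6 : 0 ≤ K * L * (v ^ 2 * ω ^ 2) := by positivity
  have g7 : 0 ≤ h * b1 * L * C2 := by positivity
  have g8 : 0 ≤ yb * v * ω ^ 2 := by positivity
  have g9 : 0 ≤ E * N * Y ^ 2 := by positivity
  have g10 : (1 + K) * A ^ 2 + K * (1 + K) * v ^ 2 * ω ^ 2 =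
      L * A ^ 2 + K * L * (v ^ 2 * ω ^ 2) := by
    rw [l.L1]
    ring
  rw [g10, e]
  have t1 := l.t1 A Y
  have t2 := l.t2 Y m2 C2 hC hm
  have t3 := l.t3 Y ω N hNn hNu
  have t4a := l.t4a A
  have t4b := l.t4b A ω
  have t4c := l.t4c A m2 C2 hC hm
  have t4d := l.t4d ω m2 C2 hC hm
  have t5a := l.t5a ω N hNn hNu
  have t5b := l.t5b ω A N hNn hNu
  have t6 := l.t6 ω A Y N hNn hNu
  have t7a := l.t7a A yh C2 hC hyh
  have t7b := l.t7b ω yh C2 hC hyh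
  have t7c := l.t7c Y yh C2 hC hyh
  have t7d := l.t7d A yh C2 hC hyh
  have t7e := l.t7e m2 yh C2 hC hm hyh
  have t7f := l.t7f ω yh C2 N hC hyh hNn hNu
  have t7g := l.t7g Y yh C2 N hC hyh hNn hNu
  have t8a := l.t8a ω yb hyb0
  have t8b := l.t8b ω A yb hyb2
  have t8c := l.t8c ω Y yb hyb2
  have t8d := l.t8d ω A yb hyb2
  have t8e := l.t8e ω m2 C2 yb hC hm hyb2
  have t8f := l.t8f ω yb N hyb0 hNn hNu
  have t8g := l.t8g ω Y yb N hyb2 hNn hNu
  have t9 := l.t9 ω Y S7 C2 hC hS7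
  obtain ⟨QA, hQA⟩ : ∃ QA, QA = L * A ^ 2 := ⟨_, rfl⟩
  obtain ⟨QB, hQB⟩ : ∃ QB, QB = K * L * (v ^ 2 * ω ^ 2) := ⟨_, rfl⟩
  obtain ⟨QC, hQC⟩ : ∃ QC, QC = h * b1 * L * C2 := ⟨_, rfl⟩
  obtain ⟨QD, hQD⟩ : ∃ QD, QD = E * a * (v ^ 2 * Y ^ 2) := ⟨_, rfl⟩
  obtain ⟨QN, hQN⟩ : ∃ QN, QN = E * N * Y ^ 2 := ⟨_, rfl⟩
  obtain ⟨QY, hQY⟩ : ∃ QY, QY = yb * v * ω ^ 2 := ⟨_, rfl⟩
  linarith

end Lt

/-- ALP. -/
theorem alp_st : AlpStatement := by
  intro K v R ω Y A m2 C2 N2 yh yb S6 S7 hK hv hR hm hC hN0 hN2 hyh hyb0 hyb hS6 hS7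
  have hL : (0 : ℝ) < 1 + K := by linarith
  have l : Lt K (1 + K) (wid K) (wa K) (wb K) (wb K * wid K) (hw R) (Real.exp (4 - 4 * R)) v :=
    { K0 := hK
      L1 := rfl
      a0 := wa_pos hK.le
      aL := by
        unfold wa
        field_simp
      b0 := by
        rw [wb_mul_wid hK]
        positivity
      bL := by
        rw [wb_mul_wid hK]
        unfold wa
        field_simp
        norm_num
      bb := wb_nonneg K
      bs := rfl
      s0 := wid_nonneg K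
      s1 := by
        rw [wid_sq hK.le]
        have := min_le_left 1 K
        linarith
      s2 := by
        rw [wid_sq hK.le]
        have := min_le_right 1 K
        linarith
      hE := rfl
      E0 := Real.exp_pos _
      E1 := exp_le hv hR
      v0 := hv
      Ev := exp_mul_le hv hR
      Ev2 := exp_mul_sq_le hv hR }
  exact l.main ω Y A m2 C2 N2 yh yb S6 S7 hm hC hN0 hN2 hyh hyb0 hyb hS6 hS7

end Pool.Agent.Lib.MP_4fbe7c_an.WN.H54
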