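import Pool.Agent.Lib.MP_4fbe7c_an.WN.Base
import Pool.Agent.Lib.MP_4fbe7c_an.ND.H54.Cri

/-!
Project WN (MP_4fbe7c_an), module CRI: the criterion (helper54).
-/

set_option autoImplicit false

open Set MeasureTheory

namespace Pool.Agent.Lib.MP_4fbe7c_an.WN.H54

open Pool.Agent.Lib.MP_4fbe7c_an.UL Pool.Agent.Lib.MP_4fbe7c_an.ND
open Pool.Agent.Lib.MP_4fbe7c_an.WN
open Pool.Agent.Lib.MP_4fbe7c_an.ND.H54 (exists_uniform Cfg finite_cfg)
open Pool.Agent.Lib.MP_4fbe7c_an.FC (GtmStatement)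

/-! ### Positivity of the dissipation -/

section dx

variable {p : ℕ} {Ω : Set (Eu p)} {q : Eu p → ℝ}

theorem dxw_nonneg (hEsg : EsgStatement) {n : ℕ} {ρ : ℕ → ℝ} (hW : Win n ρ)
    {θ : Eu p → ℝ} {θ' : Eu p → Eu p} {f : ℕ → Eu p → ℝ} {f' : ℕ → Eu p → Eu p} {x : Eu p}
    (hx : 0 < θ x) (hf : ∀ i, i ≤ n → 0 < f i x) : 0 ≤ DxW n ρ θ θ' f f' x := by
  unfold DxW ReW
  have h0 := hW.ord.pos
  have hK := hW.nn
  have h1 := (hEsg n (Kr ρ) (kr ρ) (fun i => f i x / θ x) hW.kap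
    (fun i hi => div_pos (hf i hi) hx)).1
  have h2 : 0 ≤ θ x ^ 3 * ((qv n (fun i => f i x / θ x) 0 - 1) * ∑ i ∈ Finset.range (n + 1),
      f i x / θ x * Ff n (kr ρ) (wa (Kr ρ)) (wb (Kr ρ)) (fun i => f i x / θ x) i) :=
    mul_nonneg (by positivity) h1
  have h3 : 0 ≤ ρ 0 / 2 * (θ x ^ 2 * ‖qv n (rg (θ x) (θ' x) (fun i => f i x)
      (fun i => f' i x)) 1‖ ^ 2 + Kr ρ * ‖qv n (fun i => f' i x) 1‖ ^ 2) := by positivity
  exact add_nonneg h3 h2

theorem int_dxw_nonneg (hEsg : EsgStatement) (hΩ : Dom Ω q) {n : ℕ} {ρ : ℕ → ℝ}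
    (hW : Win n ρ) {θ : Eu p → ℝ} {θ' : Eu p → Eu p} {f : ℕ → Eu p → ℝ}
    {f' : ℕ → Eu p → Eu p} (hθ : ∀ x ∈ closure Ω, 0 < θ x)
    (hf : ∀ i, i ≤ n → ∀ x ∈ closure Ω, 0 < f i x) :
    0 ≤ ∫ x in Ω, DxW n ρ θ θ' f f' x :=
  setIntegral_nonneg hΩ.measurableSet fun x hx =>
    dxw_nonneg hEsg hW (hθ x (subset_closure hx)) fun i hi => hf i hi x (subset_closure hx)

end dx

/-! ### The window condition -/

theorem win_of {N : ℕ} {d : Fin N → ℝ} {i₀ : Fin N} {D W : ℝ} (hd₀ : 0 < d i₀)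
    (hD : d i₀ < D) (hdj : ∀ j, j ≠ i₀ → D ≤ d j ∧ d j ≤ D + W)
    (hW : 1000000 * W ^ 2 ≤ d i₀ * min (d i₀) (D - d i₀)) {n : ℕ} {σ : ℕ → Fin N}
    (hσne : ∀ k, 1 ≤ k → k ≤ n → σ k ≠ i₀) (hσ0 : σ 0 = i₀)
    (hOrd : Ord n (fun k => d (σ k))) : Win n (fun k => d (σ k)) := by
  have hK : Kr (fun k => d (σ k)) = d (σ 1) / d i₀ - 1 := by
    unfold Kr
    simp only [hσ0]
  have hkr : ∀ i, kr (fun k => d (σ k)) i = (d (σ i) - d (σ 1)) / d i₀ := by
    intro i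
    unfold kr
    simp only [hσ0]
  have h01 : d i₀ ≤ d (σ 1) := by
    by_cases h : σ 1 = i₀
    · rw [h]
    · linarith [(hdj _ h).1]
  refine ⟨hOrd, ?_, ?_⟩
  · rw [hK, sub_nonneg, le_div_iff₀ hd₀]
    linarith
  · intro i hi hin
    have h1 := hσne i hi hin
    have h2 := hσne 1 le_rfl (hi.trans hin)
    have h3 := hdj _ h1
    have h4 := hdj _ h2
    have hW0 : 0 ≤ W := by linarith
    rw [hkr, hK]
    have h5 : (d (σ i) - d (σ 1)) / d i₀ ≤ W / d i₀ := by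
      gcongr
      linarith
    refine h5.trans ?_
    have h6 : 0 < W / d i₀ ∨ W / d i₀ = 0 := by
      rcases hW0.lt_or_eq with h | h
      · exact Or.inl (by positivity)
      · exact Or.inr (by rw [← h]; simp)
    have h7 : (1000 * (W / d i₀)) ^ 2 ≤ min 1 (d (σ 1) / d i₀ - 1) := by
      have h8 : (1000 * (W / d i₀)) ^ 2 = 1000000 * W ^ 2 / d i₀ ^ 2 := by
        field_simp
        ring
      rw [h8, div_le_iff₀ (by positivity)]
      refine hW.trans ?_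
      have h9 : (min 1 (d (σ 1) / d i₀ - 1)) * d i₀ ^ 2 =
          d i₀ * min (d i₀) (d (σ 1) - d i₀) := by
        rw [pow_two, ← mul_assoc, min_mul_of_nonneg _ _ hd₀.le, one_mul, sub_mul,
          div_mul_cancel₀ _ hd₀.ne', one_mul, mul_comm]
      rw [h9]
      refine mul_le_mul_of_nonneg_left ?_ hd₀.le
      exact min_le_min le_rfl (by linarith)
    unfold wid
    rw [le_div_iff₀ (by norm_num)]
    calc W / d i₀ * 1000 = 1000 * (W / d i₀) := by ring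
      _ = Real.sqrt ((1000 * (W / d i₀)) ^ 2) := (Real.sqrt_sq (by positivity)).symm
      _ ≤ _ := Real.sqrt_le_sqrt h7

section main

variable {p : ℕ} {Ω : Set (Eu p)} {q m : Eu p → ℝ} {θ : Eu p → ℝ}
  {θ' : Eu p → Eu p} {θ'' : Eu p → Eu p →L[ℝ] Eu p} {N : ℕ} {d : Fin N → ℝ} {i₀ : Fin N}

/-- Lyapunov stability. -/
theorem stab (hEsg : EsgStatement) (hDsw : DswStatement) (hUpp : UppWStatement)
    (hLob : LobWStatement) (hTop : TopStatement) (hPre : PreStatement) (hBnd : BndStatement)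
    (hSho : ShoStatement) (hMrg : MrgNStatement) (hΩ : Dom Ω q)
    (hm : ContinuousOn m (closure Ω)) (hd : ∀ i, 0 < d i) (hdj : ∀ j, j ≠ i₀ → d i₀ < d j)
    (hwin : ∀ (n : ℕ) (σ : ℕ → Fin N), (∀ k, n < k → σ k = i₀) →
      (∀ k, 1 ≤ k → k ≤ n → σ k ≠ i₀) → σ 0 = i₀ → Ord n (fun k => d (σ k)) →
      Win n (fun k => d (σ k)))
    (hθ : Stdy Ω q m (d i₀) θ θ' θ'') {ε : ℝ} (hε : 0 < ε) :
    ∃ δ : ℝ, 0 < δ ∧ ∀ (u : Fin N → ℝ → Eu p → ℝ) (v : Fin N → ℝ → Eu p → Eu p)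
      (w : Fin N → ℝ → Eu p → Eu p →L[ℝ] Eu p), Sol Ω q m d u v w → NearN Ω u i₀ θ δ 0 →
      ∀ t, 0 ≤ t → NearN Ω u i₀ θ ε t := by
  classical
  obtain ⟨l, b, hl, hlb, hθb⟩ := stdy_bounds hΩ hθ
  obtain ⟨M, K, hMK⟩ := hBnd p Ω q m N d (b + 1) hΩ hm hd
  obtain ⟨c, hc, htop⟩ := hTop p Ω q m θ θ' θ'' N d i₀ hΩ hm hd hθ
  have hst : ∀ s : ℕ × (ℕ → Fin N), s.2 0 = i₀ →
      Stdy Ω q m ((fun k => d (s.2 k)) 0) θ θ' θ'' := by
    intro s hs
    change Stdy Ω q m (d (s.2 0)) θ θ' θ''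
    rw [hs]
    exact hθ
  -- LOB, uniformly
  obtain ⟨η, hη, hlob⟩ := exists_uniform (finite_cfg i₀)
    (fun s η => s.2 0 = i₀ → Win s.1 (fun k => d (s.2 k)) → ∀ f : ℕ → Eu p → ℝ,
      (∀ i, i ≤ s.1 → ContinuousOn (f i) (closure Ω) ∧ LipOn Ω K (f i) ∧
        ∀ x ∈ closure Ω, 0 < f i x ∧ f i x ≤ M) →
      (∀ x ∈ closure Ω, f 0 x ≤ (1 + η) * θ x) →
      FuW Ω s.1 (fun k => d (s.2 k)) θ f < FuWE Ω θ + η →
      ∀ x ∈ closure Ω, |f 0 x - θ x| < ε ∧ ∀ i, 1 ≤ i → i ≤ s.1 → f i x < ε)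
    (fun s _ => by
      by_cases h : s.2 0 = i₀ ∧ Win s.1 (fun k => d (s.2 k))
      · obtain ⟨η, hη, h1⟩ := hLob p Ω q m θ θ' θ'' s.1 (fun k => d (s.2 k)) M K ε
          hΩ h.2 (hst s h.1) hε
        exact ⟨η, hη, fun _ _ f hf hf0 hF => h1 f hf hf0 hF⟩
      · exact ⟨1, one_pos, fun h1 h2 => absurd ⟨h1, h2⟩ h⟩)
    (fun s _ η η' hle h h1 h2 f hf hf0 hF => h h1 h2 f hf
      (fun x hx => (hf0 x hx).trans
        (mul_le_mul_of_nonneg_right (by linarith) (hθ.pos x hx).le)) (by linarith))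
  -- UPP, uniformly
  obtain ⟨δ₁, hδ₁, hupp⟩ := exists_uniform (finite_cfg i₀)
    (fun s δ => s.2 0 = i₀ → Win s.1 (fun k => d (s.2 k)) → ∀ f : ℕ → Eu p → ℝ,
      (∀ i, i ≤ s.1 → ContinuousOn (f i) (closure Ω) ∧ ∀ x ∈ closure Ω, 0 < f i x) →
      (∀ x ∈ closure Ω, |f 0 x - θ x| < δ ∧ ∀ i, 1 ≤ i → i ≤ s.1 → f i x < δ) →
      FuW Ω s.1 (fun k => d (s.2 k)) θ f < FuWE Ω θ + η)
    (fun s _ => by
      by_cases h : s.2 0 = i₀ ∧ Win s.1 (fun k => d (s.2 k))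
      · obtain ⟨δ, hδ, h1⟩ := hUpp p Ω q m θ θ' θ'' s.1 (fun k => d (s.2 k)) η
          hΩ h.2 (hst s h.1) hη
        exact ⟨δ, hδ, fun _ _ f hf hF => h1 f hf hF⟩
      · exact ⟨1, one_pos, fun h1 h2 => absurd ⟨h1, h2⟩ h⟩)
    (fun s _ δ δ' hle h h1 h2 f hf hF => h h1 h2 f hf fun x hx =>
      ⟨(hF x hx).1.trans_le hle, fun i hi hi' => ((hF x hx).2 i hi hi').trans_le hle⟩)
  obtain ⟨δ₂, hδ₂, hsho⟩ := hSho p Ω q m N d i₀ θ θ' θ'' (min ε δ₁) hΩ hm hd hθ (lt_min hε hδ₁)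
  refine ⟨min δ₂ (min 1 (min l (η * l))),
    lt_min hδ₂ (lt_min one_pos (lt_min hl (mul_pos hη hl))), ?_⟩
  intro u v w hsol hnear
  have hb : 0 < b := hl.trans_le hlb
  have hδ2 : min δ₂ (min 1 (min l (η * l))) ≤ 1 := (min_le_right _ _).trans (min_le_left _ _)
  have hδ3 : min δ₂ (min 1 (min l (η * l))) ≤ l :=
    (min_le_right _ _).trans ((min_le_right _ _).trans (min_le_left _ _))
  have hδ4 : min δ₂ (min 1 (min l (η * l))) ≤ η * l :=
    (min_le_right _ _).trans ((min_le_right _ _).trans (min_le_right _ _))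
  have hnear₂ : NearN Ω u i₀ θ δ₂ 0 := fun x hx =>
    ⟨(hnear x hx).1.trans_le (min_le_left _ _),
      fun j hj => ((hnear x hx).2 j hj).trans_le (min_le_left _ _)⟩
  have hsh := hsho u v w hsol hnear₂
  -- the upper bound of the species `i₀`
  have htp : ∀ t, 0 ≤ t → ∀ x ∈ closure Ω, u i₀ t x ≤ (1 + η) * θ x := by
    intro t ht x hx
    have h1 := htop u v w η hsol hη.le (fun x hx => by
      have h2 := (abs_lt.mp (hnear x hx).1).2
      have h3 : η * l ≤ η * θ x := mul_le_mul_of_nonneg_left (hθb x hx).1 hη.le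
      linarith) t ht x hx
    refine h1.trans (mul_le_mul_of_nonneg_right ?_ (hθ.pos x hx).le)
    have h4 : Real.exp (-(c * t)) ≤ 1 := Real.exp_le_one_iff.mpr (by
      have : 0 ≤ c * t := by positivity
      linarith)
    have h5 := mul_le_mul_of_nonneg_left h4 hη.le
    linarith
  -- bounds
  have hB : ∀ i, ∀ x ∈ closure Ω, u i 0 x ≤ b + 1 := by
    intro i x hx
    by_cases hi : i = i₀
    · rw [hi]
      have h2 := (abs_lt.mp (hnear x hx).1).2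
      linarith [(hθb x hx).2]
    · have h2 := (hnear x hx).2 i hi
      linarith
  have hbnd := hMK u v w hsol hB
  -- the species `i₀` is present
  have hex : ∃ x ∈ closure Ω, 0 < u i₀ 0 x := by
    obtain ⟨x, hx⟩ := hΩ.closure_nonempty
    refine ⟨x, hx, ?_⟩
    have h2 := (abs_lt.mp (hnear x hx).1).1
    linarith [(hθb x hx).1]
  have hpre := fun i => hPre p Ω q m N d u v w hΩ hm hd hsol i
  have hpres : PresN Ω u i₀ := (hpre i₀).2.1 hex
  obtain ⟨n, σ, hnN, hσi, hσne, hσ0, hOrd, hSol, hall⟩ := hMrg p Ω q m N d u v w i₀ hΩ hm hd hsol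
    hpres hdj (fun j => (hpre j).2.2)
  have hcfg : ((n, σ) : ℕ × (ℕ → Fin N)) ∈ Cfg N i₀ := ⟨hnN, hσi⟩
  have hW := hwin n σ hσi hσne hσ0 hOrd
  have hθ1 := hst (n, σ) hσ0
  have hdis := fun t ht => hDsw p Ω q m θ θ' θ'' n (fun k => d (σ k))
    (fun k => u (σ k)) (fun k => v (σ k)) (fun k => w (σ k)) hSol hW hθ1 t ht
  have hcont : ∀ t, 0 < t → ∀ i, i ≤ n → ContinuousOn (u (σ i) t) (closure Ω) ∧
      ∀ x ∈ closure Ω, 0 < u (σ i) t x := fun t ht i hi =>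
    ⟨(hsol.evo (σ i)).c0 ht.le, hSol.pos i hi t ht⟩
  -- the functional is small at time `1`
  have hF1 : FuW Ω n (fun k => d (σ k)) θ (fun i => u (σ i) 1) < FuWE Ω θ + η := by
    refine hupp (n, σ) hcfg hσ0 hW (fun i => u (σ i) 1) (hcont 1 one_pos) ?_
    intro x hx
    have h1 := hsh 1 zero_le_one le_rfl x hx
    refine ⟨?_, fun i hi hin => ?_⟩
    · have h2 := h1.1.trans_le (min_le_right _ _)
      simpa only [hσ0] using h2
    · exact (h1.2 (σ i) (hσne i hi hin)).trans_le (min_le_right _ _)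
  -- monotonicity
  have hanti : ∀ t, 1 ≤ t → FuW Ω n (fun k => d (σ k)) θ (fun i => u (σ i) t) ≤
      FuW Ω n (fun k => d (σ k)) θ (fun i => u (σ i) 1) := by
    have hA : AntitoneOn (fun t => FuW Ω n (fun k => d (σ k)) θ
        (fun i => u (σ i) t)) (Ici 1) := by
      refine antitoneOn_of_deriv_nonpos (convex_Ici 1) ?_ ?_ ?_
      · intro t ht
        obtain ⟨F', h1, -⟩ := hdis t (one_pos.trans_le ht)
        exact h1.continuousAt.continuousWithinAt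
      · intro t ht
        rw [interior_Ici] at ht
        obtain ⟨F', h1, -⟩ := hdis t (one_pos.trans ht)
        exact h1.differentiableAt.differentiableWithinAt
      · intro t ht
        rw [interior_Ici] at ht
        obtain ⟨F', h1, h2⟩ := hdis t (one_pos.trans ht)
        have h3 : deriv (fun t => FuW Ω n (fun k => d (σ k)) θ
          (fun i => u (σ i) t)) t = F' := h1.deriv
        rw [h3]
        have h4 := int_dxw_nonneg hEsg hΩ hW hθ.pos (θ' := θ')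
          (f := fun i => u (σ i) t) (f' := fun i => v (σ i) t)
          (fun i hi => (hcont t (one_pos.trans ht) i hi).2)
        linarith
    exact fun t ht => hA self_mem_Ici ht ht
  intro t ht x hx
  rcases le_total t 1 with h1 | h1
  · have h2 := hsh t ht h1 x hx
    exact ⟨h2.1.trans_le (min_le_left _ _), fun j hj => (h2.2 j hj).trans_le (min_le_left _ _)⟩
  · have ht0 : 0 < t := one_pos.trans_le h1
    have h2 := hlob (n, σ) hcfg hσ0 hW (fun i => u (σ i) t)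
      (fun i hi => ⟨(hcont t ht0 i hi).1, (hbnd (σ i)).2 t h1, fun x hx =>
        ⟨(hcont t ht0 i hi).2 x hx, (hbnd (σ i)).1 t ht x hx⟩⟩)
      (fun x hx => by simpa only [hσ0] using htp t ht x hx)
      ((hanti t h1).trans_lt hF1) x hx
    refine ⟨by simpa only [hσ0] using h2.1, fun j hj => ?_⟩
    rcases hall j hj with h3 | ⟨k, hk1, hkn, hkj⟩
    · rw [h3 t ht x hx]
      exact hε
    · have := h2.2 k hk1 hkn
      simpa only [hkj] using this

/-- Attraction. -/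
theorem attr (hGtm : GtmStatement) (hDsw : DswStatement) (hLow : LowWStatement)
    (hClo : CloWStatement) (hTop : TopStatement) (hPre : PreStatement) (hBnd : BndStatement)
    (hMrg : MrgNStatement) (hΩ : Dom Ω q) (hm : ContinuousOn m (closure Ω))
    (hnc : ∃ x ∈ closure Ω, ∃ y ∈ closure Ω, m x ≠ m y)
    (hd : ∀ i, 0 < d i) (hdj : ∀ j, j ≠ i₀ → d i₀ < d j)
    (hwin : ∀ (n : ℕ) (σ : ℕ → Fin N), (∀ k, n < k → σ k = i₀) →
      (∀ k, 1 ≤ k → k ≤ n → σ k ≠ i₀) → σ 0 = i₀ → Ord n (fun k => d (σ k)) →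
      Win n (fun k => d (σ k)))
    (hθ : Stdy Ω q m (d i₀) θ θ' θ'') {δ : ℝ} (hδ : 0 < δ)
    {u : Fin N → ℝ → Eu p → ℝ} {v : Fin N → ℝ → Eu p → Eu p}
    {w : Fin N → ℝ → Eu p → Eu p →L[ℝ] Eu p} (hsol : Sol Ω q m d u v w)
    (hex : ∃ x ∈ closure Ω, 0 < u i₀ 0 x) : ∃ t : ℝ, 1 ≤ t ∧ NearN Ω u i₀ θ δ t := by
  classical
  -- a bound of the initial data
  obtain ⟨B, hB⟩ : ∃ B : ℝ, ∀ i, ∀ x ∈ closure Ω, u i 0 x ≤ B := by
    have h1 : ∀ i, ∃ B : ℝ, ∀ x ∈ closure Ω, u i 0 x ≤ B := by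
      intro i
      obtain ⟨C, -, hC⟩ := hΩ.exists_bound ((hsol.evo i).c0 le_rfl)
      exact ⟨C, fun x hx => (le_abs_self _).trans (hC x hx)⟩
    choose B hB using h1
    refine ⟨∑ i, |B i|, fun i x hx => (hB i x hx).trans ((le_abs_self _).trans ?_)⟩
    exact Finset.single_le_sum (f := fun i => |B i|) (fun j _ => abs_nonneg _)
      (Finset.mem_univ i)
  obtain ⟨l, b, hl, hlb, hθb⟩ := stdy_bounds hΩ hθ
  obtain ⟨M, K, hMK⟩ := hBnd p Ω q m N d B hΩ hm hd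
  obtain ⟨c, hc, htop⟩ := hTop p Ω q m θ θ' θ'' N d i₀ hΩ hm hd hθ
  have hbnd := hMK u v w hsol hB
  have hpre := fun i => hPre p Ω q m N d u v w hΩ hm hd hsol i
  have hpres : PresN Ω u i₀ := (hpre i₀).2.1 hex
  obtain ⟨n, σ, hnN, hσi, hσne, hσ0, hOrd, hSol, hall⟩ := hMrg p Ω q m N d u v w i₀ hΩ hm hd hsol
    hpres hdj (fun j => (hpre j).2.2)
  have hW := hwin n σ hσi hσne hσ0 hOrd
  have hθ1 : Stdy Ω q m ((fun k => d (σ k)) 0) θ θ' θ'' := by
    change Stdy Ω q m (d (σ 0)) θ θ' θ''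
    rw [hσ0]
    exact hθ
  obtain ⟨η, hη, hclo⟩ := hClo p Ω q m θ θ' θ'' n (fun k => d (σ k)) M K δ hΩ hm hnc hW hθ1 hδ
  -- the upper bound of the species `i₀`
  have htp := htop u v w (|B| / l) hsol (by positivity) (fun x hx => by
    have h2 : |B| ≤ |B| / l * θ x := by
      calc |B| = |B| / l * l := by field_simp
        _ ≤ _ := mul_le_mul_of_nonneg_left (hθb x hx).1 (by positivity)
    have h3 := hB i₀ x hx
    have h4 := le_abs_self B
    have h5 := hθ.pos x hx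
    linarith)
  obtain ⟨T, hT1, hT⟩ : ∃ T : ℝ, 1 ≤ T ∧ ∀ t, T ≤ t → ∀ x ∈ closure Ω,
      u i₀ t x ≤ (1 + η) * θ x := by
    have h1 : Filter.Tendsto (fun t : ℝ => |B| / l * Real.exp (-(c * t))) Filter.atTop
        (nhds (|B| / l * 0)) := by
      refine Filter.Tendsto.const_mul _ (Real.tendsto_exp_neg_atTop_nhds_zero.comp ?_)
      exact Filter.tendsto_id.const_mul_atTop hc
    rw [mul_zero] at h1
    obtain ⟨T, hT⟩ := Filter.eventually_atTop.mp (h1.eventually_lt_const hη)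
    refine ⟨max T 1, le_max_right _ _, fun t ht x hx => ?_⟩
    have h2 := hT t ((le_max_left _ _).trans ht)
    have h3 := htp t (zero_le_one.trans ((le_max_right _ _).trans ht)) x hx
    exact h3.trans (mul_le_mul_of_nonneg_right (by linarith) (hθ.pos x hx).le)
  have hdis := fun t ht => hDsw p Ω q m θ θ' θ'' n (fun k => d (σ k))
    (fun k => u (σ k)) (fun k => v (σ k)) (fun k => w (σ k)) hSol hW hθ1 t ht
  have hcont : ∀ t, 0 < t → ∀ i, i ≤ n → ContinuousOn (u (σ i) t) (closure Ω) ∧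
      ∀ x ∈ closure Ω, 0 < u (σ i) t x := fun t ht i hi =>
    ⟨(hsol.evo (σ i)).c0 ht.le, hSol.pos i hi t ht⟩
  have hlow := fun t (ht : 0 < t) => hLow p Ω q m θ θ' θ'' n (fun k => d (σ k))
    (fun i => u (σ i) t) hΩ hW hθ1 (hcont t ht)
  choose! F' hF' using hdis
  obtain ⟨t, hTt, ht1, hGt⟩ := hGtm
    (fun t => FuW Ω n (fun k => d (σ k)) θ (fun i => u (σ i) t)) F'
    (fun t => ∫ x in Ω, DxW n (fun k => d (σ k)) θ θ' (fun i => u (σ i) t)
      (fun i => v (σ i) t) x) 1 1 0 (-FuWE Ω θ) one_pos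
    (fun t ht => (hF' t (by linarith)).1)
    (fun t ht => by simpa using (hF' t (by linarith)).2)
    (fun t ht => by simpa using hlow t (by linarith)) η T hη
  have ht0 : 0 < t := by linarith
  have hcl := hclo (fun i => u (σ i) t) (fun i => v (σ i) t) (fun i hi =>
    ⟨(hsol.evo (σ i)).C1 ht0, (hbnd (σ i)).2 t ht1, fun x hx =>
      ⟨hSol.pos i hi t ht0 x hx, (hbnd (σ i)).1 t ht0.le x hx⟩⟩)
    (fun x hx => by simpa only [hσ0] using hT t hTt x hx) hGt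
  refine ⟨t, ht1, fun y hy => ?_⟩
  obtain ⟨h1, h2⟩ := hcl y hy
  simp only [hσ0] at h1
  refine ⟨h1, fun j hj => ?_⟩
  rcases hall j hj with hab' | ⟨k, hk1, hkn, hkj⟩
  · rw [hab' t ht0.le y hy]
    exact hδ
  · have := h2 k hk1 hkn
    simpa only [hkj] using this

end main

/-- CRI: the criterion. -/
theorem cri_st (hEsg : EsgStatement) (hGtm : GtmStatement) (hDsw : DswStatement)
    (hLow : LowWStatement) (hUpp : UppWStatement) (hLob : LobWStatement) (hClo : CloWStatement)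
    (hTop : TopStatement) (hPre : PreStatement) (hBnd : BndStatement) (hSho : ShoStatement)
    (hMrg : MrgNStatement) : CriWStatement := by
  intro p Ω q m θ θ' θ'' N d i₀ D W hΩ hm hnc hd₀ hD hdj hW hθ ε hε
  have hdj' : ∀ j, j ≠ i₀ → d i₀ < d j := fun j hj => hD.trans_le (hdj j hj).1
  have hd : ∀ i, 0 < d i := by
    intro i
    by_cases h : i = i₀
    · rw [h]; exact hd₀
    · exact hd₀.trans (hdj' i h)
  have hwin : ∀ (n : ℕ) (σ : ℕ → Fin N), (∀ k, n < k → σ k = i₀) →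
      (∀ k, 1 ≤ k → k ≤ n → σ k ≠ i₀) → σ 0 = i₀ → Ord n (fun k => d (σ k)) →
      Win n (fun k => d (σ k)) := fun n σ _ h2 h3 h4 => win_of hd₀ hD hdj hW h2 h3 h4
  obtain ⟨δ, hδ, hst⟩ := stab hEsg hDsw hUpp hLob hTop hPre hBnd hSho hMrg hΩ hm hd hdj' hwin hθ hε
  refine ⟨δ, hδ, fun u v w hsol => ⟨hst u v w hsol, fun hex => ?_⟩⟩
  obtain ⟨s, hs, hnear⟩ := attr hGtm hDsw hLow hClo hTop hPre hBnd hMrg hΩ hm hnc hd hdj' hwin hθ
    hδ hsol hex
  have hs0 : 0 ≤ s := zero_le_one.trans hs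
  have hsh : Sol Ω q m d (fun i t => u i (s + t)) (fun i t => v i (s + t))
      (fun i t => w i (s + t)) :=
    ND.H54.Sol.shift hsol hs0 fun i x hx =>
      (hPre p Ω q m N d u v w hΩ hm hd hsol i).1 s hs0 x hx
  have hn : NearN Ω (fun i t => u i (s + t)) i₀ θ δ 0 := by
    intro x hx
    simpa using hnear x hx
  refine ⟨s, fun t ht x hx => ?_⟩
  have h1 := hst _ _ _ hsh hn (t - s) (by linarith) x hx
  simpa using h1

end Pool.Agent.Lib.MP_4fbe7c_an.WN.H54
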